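import Mathlib

set_option autoImplicit false

namespace Pool.Agent.H.MP_be6c88_an

open Set Metric Filter Topology

variable {X : Type} [NormedAddCommGroup X] [NormedSpace ℝ X]

theorem dv (x : X) : ∃ g : X →L[ℝ] ℝ, (∀ y, g y ≤ ‖y‖) ∧ g x = ‖x‖ := by
  obtain ⟨g, a, b⟩ := exists_dual_vector'' ℝ x
  exact ⟨g, fun y => (le_abs_self _).trans ((g.le_of_opNorm_le a y).trans_eq (one_mul _)), b⟩

def Sm (u : X) (κ : ℝ) : Prop := ∀ φ ψ : X →L[ℝ] ℝ, (∀ y, φ y ≤ ‖y‖) → (∀ y, ψ y ≤ ‖y‖) →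
  ‖u‖ - κ ≤ φ u → ‖u‖ - κ ≤ ψ u → ∀ h, φ h - ψ h ≤ ‖h‖ / 2

theorem Sm.mono {u : X} {κ κ' : ℝ} (h : Sm u κ) (e : κ' ≤ κ) : Sm u κ' :=
  fun φ ψ a b c d => h φ ψ a b (by linarith) (by linarith)

theorem smul {u : X} (h : DifferentiableAt ℝ (fun y : X => ‖y‖) u) : ∃ κ > 0, Sm u κ := by
  obtain ⟨δ, δ0, hδ⟩ := Metric.eventually_nhds_iff.mp
    ((hasFDerivAt_iff_isLittleO_nhds_zero.mp h.hasFDerivAt).def (show 0 < (1 / 8 : ℝ) by norm_num))
  refine ⟨δ / 16, by positivity, fun φ ψ a b c d h => ?_⟩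
  rcases eq_or_ne h 0 with rfl | h0
  · simp
  have n0 := norm_pos_iff.mpr h0
  obtain ⟨t, t0, ht⟩ : ∃ t > 0, t * ‖h‖ = δ / 2 := ⟨δ / 2 / ‖h‖, by positivity, by field_simp⟩
  have e : ‖t • h‖ = δ / 2 := by rw [norm_smul, Real.norm_of_nonneg t0.le, ht]
  have e1 := (le_abs_self _).trans (hδ (y := t • h) (by rw [dist_zero_right, e]; linarith))
  have e2 := (le_abs_self _).trans (hδ (y := -(t • h)) (by rw [dist_zero_right, norm_neg, e]; linarith))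
  have a1 := a (u + t • h)
  have b1 := b (u + -(t • h))
  simp only [map_add, map_neg, norm_neg, e] at e1 e2 a1 b1
  simp only [map_smul, smul_eq_mul] at a1 b1
  refine le_of_mul_le_mul_left ?_ t0
  nlinarith

theorem three {d : Fin 3 → X × ℝ} {z : Fin 3 → X} {κ : ℝ} (h : ∀ i j, i ≠ j → (d i).2 + (d j).2 < dist (d i).1 (d j).1)
    (hz : ∀ i, dist (z i) (d i).1 = (d i).2) (hs : ∀ i, Sm ((d i).1 - z i) κ) (hκ : ∀ i j, dist (z i) (z j) ≤ κ) :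
    False := by
  choose φ a b using fun i j => dv ((d i).1 - (d j).1)
  simp only [dist_eq_norm'] at hz hκ
  have c : ∀ i j, i ≠ j → ‖(d i).1 - z i‖ - κ ≤ φ i j ((d i).1 - z i) ∧
      ‖(d j).1 - z j‖ - κ ≤ (-φ i j) ((d j).1 - z j) := fun i j e => by
    have := h i j e
    have h1 := a i j (z j - (d j).1)
    have h2 := a i j (z i - z j)
    have h3 := a i j ((d i).1 - z i)
    have h4 := b i j
    have := hκ j i
    rw [norm_sub_rev, hz] at h1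
    simp only [map_sub, dist_eq_norm, hz, neg_apply] at *
    constructor <;> linarith
  have n : ∀ i j y, (-φ i j) y ≤ ‖y‖ := fun i j y => by simpa using a i j (-y)
  have e1 := hs 0 _ _ (a 0 1) (a 0 2) (c 0 1 (by decide)).1 (c 0 2 (by decide)).1 ((d 0).1 - (d 1).1)
  have e2 := hs 1 _ _ (a 1 2) (n 0 1) (c 1 2 (by decide)).1 (c 0 1 (by decide)).2 ((d 0).1 - (d 1).1)
  have e3 := hs 2 _ _ (n 1 2) (n 0 2) (c 1 2 (by decide)).2 (c 0 2 (by decide)).2 ((d 0).1 - (d 1).1)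
  have := h 0 1 (by decide)
  have := hz 0 ▸ norm_nonneg ((d 0).1 - z 0)
  have := hz 1 ▸ norm_nonneg ((d 1).1 - z 1)
  simp only [neg_apply, b, dist_eq_norm] at *
  linarith

theorem clo {S : Set (X × ℝ)} (h : S.Finite) : IsClosed {y | ∃ p ∈ S, dist y p.1 ≤ p.2} := by
  convert h.isClosed_biUnion fun p _ => isClosed_closedBall (x := p.1) (ε := p.2)
  ext; simp

theorem loc {P : Set (X × ℝ)} (cov : ∀ x, ∃ p ∈ P, dist x p.1 ≤ p.2)
    (fin : ∀ p ∈ P, {q ∈ P | dist p.1 q.1 ≤ p.2 + q.2}.Finite) {b x : X} {R m : ℝ} (m0 : 0 < m) (mR : m ≤ R)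
    (hx : dist x b = R) (hs : Sm (x - b) m)
    (h : ∀ q ∈ P, ∀ y, dist y x ≤ m → R < dist y b → dist y q.1 ≤ q.2 → R + q.2 < dist q.1 b ∧ m ≤ q.2) : False := by
  obtain ⟨σ, σ0, hσ⟩ : ∃ σ > 0, σ * R = m / 5 := ⟨m / 5 / R, by have := m0.trans_le mR; positivity, by
    field_simp [(m0.trans_le mR).ne']⟩
  have σ1 : σ ≤ 1 := by nlinarith
  have σm : σ * m ≤ m / 5 := by nlinarith
  obtain ⟨v, rfl⟩ : ∃ v, x = b + v := ⟨x - b, by simp⟩
  rw [add_sub_cancel_left] at hs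
  rw [dist_self_add_left] at hx
  obtain ⟨y, y1, y2⟩ : ∃ y, dist y (b + v) ≤ σ * m ∧ R < dist y b := ⟨b + v + (σ * m / R) • v, by
    rw [dist_self_add_left, norm_smul, hx, Real.norm_of_nonneg (by have := m0.trans_le mR; positivity),
      div_mul_cancel₀ _ (by linarith)], by
    rw [add_assoc, dist_self_add_left, ← one_smul ℝ v, smul_smul, ← add_smul, norm_smul, hx, mul_one,
      Real.norm_of_nonneg (by have := m0.trans_le mR; positivity), add_mul, div_mul_cancel₀ _ (by linarith)]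
    nlinarith⟩
  obtain ⟨⟨c, r⟩, c1, c2⟩ := cov y
  obtain ⟨c3, c4⟩ := h _ c1 y (by linarith) y2 c2
  dsimp only at c2 c3 c4
  obtain ⟨t, t0, ht⟩ : ∃ t ≥ 0, t * r = σ * (R - m) := ⟨σ * (R - m) / r, div_nonneg (by nlinarith) (by linarith), by
    field_simp [(m0.trans_le c4).ne']⟩
  have t1 : t ≤ 1 := by nlinarith
  rw [dist_eq_norm'] at c2
  have n1 : ‖t • (c - y)‖ ≤ σ * (R - m) := by rw [norm_smul, Real.norm_of_nonneg t0]; nlinarith
  have n2 : ‖t • (c - y) - σ • v‖ ≤ 2 * (m / 5) := (norm_sub_le _ _).trans (by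
    rw [norm_smul σ, Real.norm_of_nonneg σ0.le, hx]; nlinarith)
  obtain ⟨γ, g1, g2⟩ : ∃ γ : ℝ → X, Continuous γ ∧ ∀ s, γ s = y + s • (t • (c - y) - σ • v) :=
    ⟨_, by fun_prop, fun _ => rfl⟩
  have g3 : ∀ s ∈ Icc (0 : ℝ) 1, dist (γ s) y ≤ 2 * (m / 5) := fun s a => by
    rw [g2, dist_self_add_left, norm_smul, Real.norm_of_nonneg a.1]
    nlinarith [a.1, a.2, norm_nonneg (t • (c - y) - σ • v)]
  obtain ⟨s, -, ⟨p, ⟨-, p1⟩, p2⟩, p3⟩ := isPreconnected_closed_iff.mp (isPreconnected_Icc (a := (0 : ℝ)) (b := 1)) _ _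
    ((clo ((fin _ c1).sep fun q => R + q.2 < dist q.1 b)).preimage g1)
    ((isClosed_closedBall (x := b) (ε := R)).preimage g1) (fun s a => or_iff_not_imp_right.mpr fun e => by
      obtain ⟨⟨d, ρ⟩, d1, d2⟩ := cov (γ s)
      have g4 := (dist_triangle _ _ _).trans (add_le_add (g3 s a) y1)
      obtain ⟨d3, d4⟩ := h _ d1 _ (by linarith) (not_le.mp e) d2
      refine ⟨_, ⟨⟨d1, not_lt.mp fun d5 => ?_⟩, d3⟩, d2⟩
      obtain ⟨φ, f1, f2⟩ := dv (c - d)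
      obtain ⟨ψ, f3, f4⟩ := dv (d - b)
      have := g3 s a
      simp only [dist_eq_norm] at *
      have u1 := f1 (γ s - d)
      have u2 := f1 (c - y)
      have u3 := f1 (y - γ s)
      have u4 := f3 (d - γ s)
      have u5 := f3 (γ s - (b + v))
      have u6 := f3 v
      have u7 := hs ψ φ f3 f1 (by simp only [map_sub, map_add] at *; rw [norm_sub_rev] at u4; linarith)
        (not_lt.mp fun u => by
          have w := u1.trans d2
          have w1 := mul_le_mul_of_nonneg_left (hx ▸ u.le) (mul_nonneg a.1 σ0.le)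
          have w2 := mul_le_mul_of_nonneg_left (u2.trans c2) (sub_nonneg.mpr (mul_le_one₀ a.2 t0 t1))
          have w3 := congrArg (s * ·) ht
          rw [g2] at w
          simp only [map_sub, map_add, map_smul, smul_eq_mul] at w w2 f2
          linarith) (d - γ s)
      rw [norm_sub_rev] at u3 u4 u7
      simp only [map_sub, map_add] at *
      linarith)
    ⟨0, by simp, _, ⟨⟨c1, by simp; linarith⟩, c3⟩, by simpa [g2, dist_eq_norm'] using c2⟩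
    ⟨1, by simp, by
      rw [mem_preimage, mem_closedBall, g2, one_smul, dist_eq_norm, show y + (t • (c - y) - σ • v) - b =
        y - (b + v) + t • (c - y) + (1 - σ) • v by module]
      refine (norm_add₃_le).trans ?_
      rw [norm_smul (1 - σ), Real.norm_of_nonneg (by linarith), hx, ← dist_eq_norm]
      linarith⟩
  linarith [dist_triangle_left p.1 b (γ s), mem_closedBall.mp p3]

theorem minl {P : Set (X × ℝ)} (cov : ∀ x, ∃ p ∈ P, dist x p.1 ≤ p.2)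
    (fin : ∀ x, {p ∈ P | dist x p.1 ≤ p.2}.Finite) : ∃ Q ⊆ P, (∀ x, ∃ p ∈ Q, dist x p.1 ≤ p.2) ∧
      ∀ p ∈ Q, ∃ y, dist y p.1 ≤ p.2 ∧ ∀ q ∈ Q, q ≠ p → q.2 < dist y q.1 := by
  obtain ⟨Q, a, b⟩ := zorn_superset_nonempty {Q | Q ⊆ P ∧ ∀ x, ∃ p ∈ Q, dist x p.1 ≤ p.2} (fun c h1 h2 h3 => by
    refine ⟨⋂₀ c, ⟨(sInter_subset_of_mem h3.some_mem).trans (h1 h3.some_mem).1, fun x => ?_⟩,
      fun _ => sInter_subset_of_mem⟩
    obtain ⟨A, a1, a2⟩ := wellFounded_lt.has_min ((fun A => {p ∈ A | dist x p.1 ≤ p.2}.ncard) '' c) (h3.image _)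
    obtain ⟨A, a1, rfl⟩ := a1
    obtain ⟨p, p1, p2⟩ := (h1 a1).2 x
    refine ⟨p, fun B hB => by_contra fun e => a2 _ ⟨B, hB, rfl⟩ (ncard_lt_ncard ⟨fun q hq => ⟨?_, hq.2⟩,
      fun g => e (g ⟨p1, p2⟩).1⟩ ((fin x).subset fun q hq => ⟨(h1 a1).1 hq.1, hq.2⟩)), p2⟩
    exact ((h2.total a1 hB).resolve_left fun g => e (g p1)) hq.1) P ⟨le_rfl, cov⟩
  refine ⟨Q, a, b.1.2, fun p hp => by_contra fun e => ?_⟩
  push Not at e
  refine (b.2 (y := Q \ {p}) ⟨sdiff_subset.trans a, fun x => ?_⟩ sdiff_subset hp).2 rfl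
  obtain ⟨q, q1, q2⟩ := b.1.2 x
  rcases eq_or_ne q p with rfl | g
  · obtain ⟨q, q1, q2, q3⟩ := e x q2
    exact ⟨q, ⟨q1, q2⟩, q3⟩
  · exact ⟨q, ⟨q1, g⟩, q2⟩

theorem bd (hX : ¬FiniteDimensional ℝ X) {S : Set (X × ℝ)} (h : S.Finite) {y b : X} {R : ℝ} (h1 : dist y b ≤ R)
    (h2 : ∀ q ∈ S, q.2 < dist y q.1) : ∃ x, dist x b = R ∧ ∀ q ∈ S, q.2 < dist x q.1 := by
  have := h.to_subtype
  choose φ a c using fun q : S => dv (y - q.1.1)
  obtain ⟨z, z1, z2⟩ := (LinearMap.ker (LinearMap.pi fun q => (φ q).toLinearMap)).exists_mem_ne_zero_of_ne_bot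
    fun e => hX (FiniteDimensional.of_injective _ (LinearMap.ker_eq_bot.mp e))
  have n := norm_pos_iff.mpr z2
  obtain ⟨t, ht⟩ := intermediate_value_univ 0 (2 * R / ‖z‖) (f := fun t : ℝ => dist (y + t • z) b) (by fun_prop)
    (show R ∈ _ from ⟨by simpa using h1, by
      have := dist_triangle_right (y + (2 * R / ‖z‖) • z) y b
      rw [dist_self_add_left, norm_smul, Real.norm_of_nonneg (by have := dist_nonneg.trans h1; positivity),
        div_mul_cancel₀ _ n.ne'] at this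
      linarith⟩)
  refine ⟨_, ht, fun q hq => (h2 q hq).trans_le ?_⟩
  have e := a ⟨q, hq⟩ (y + t • z - q.1)
  have g : φ ⟨q, hq⟩ z = 0 := congrFun (LinearMap.mem_ker.mp z1) ⟨q, hq⟩
  have := c ⟨q, hq⟩
  simp only [map_sub, map_add, map_smul, g, smul_zero, dist_eq_norm] at *
  linarith

theorem core [CompleteSpace X] (hX : ¬FiniteDimensional ℝ X)
    (hd : ∀ x : X, x ≠ 0 → DifferentiableAt ℝ (fun y : X => ‖y‖) x) {P : Set (X × ℝ)} (pos : ∀ p ∈ P, 0 < p.2)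
    (cov : ∀ x, ∃ p ∈ P, dist x p.1 ≤ p.2) (fin : ∀ p ∈ P, {q ∈ P | dist p.1 q.1 ≤ p.2 + q.2}.Finite)
    (pr : ∀ p ∈ P, ∃ y, dist y p.1 ≤ p.2 ∧ ∀ q ∈ P, q ≠ p → q.2 < dist y q.1) : False := by
  obtain ⟨U, hU⟩ : ∃ U : X × ℝ → X → Prop, ∀ p x, U p x ↔ dist x p.1 = p.2 ∧ ∀ q ∈ P, q ≠ p → q.2 < dist x q.1 :=
    ⟨_, fun _ _ => Iff.rfl⟩
  have u1 : ∀ p ∈ P, ∃ x, U p x := fun p hp => by
    obtain ⟨y, a, b⟩ := pr p hp
    obtain ⟨x, c, d⟩ := bd hX ((fin p hp).sep (· ≠ p)) a fun q hq => b q hq.1.1 hq.2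
    refine ⟨x, (hU _ _).mpr ⟨c, fun q q1 q2 => not_le.mp fun e => (d q ⟨⟨q1, ?_⟩, q2⟩).not_ge e⟩⟩
    linarith [dist_triangle_left p.1 q.1 x]
  obtain ⟨V, hV⟩ : ∃ V, V = closure {x | ∃ p ∈ P, U p x} := ⟨_, rfl⟩
  have : CompleteSpace V := (hV ▸ isClosed_closure).completeSpace_coe
  obtain ⟨p0, hp0, -⟩ := cov 0
  obtain ⟨x0, hx0⟩ := u1 p0 hp0
  have : Nonempty V := ⟨⟨x0, hV ▸ subset_closure ⟨p0, hp0, hx0⟩⟩⟩
  obtain ⟨n, ⟨z0, hz0⟩, e⟩ := nonempty_interior_of_iUnion_of_closed (X := V) (f := fun n : ℕ => Subtype.val ⁻¹'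
    closure {z | ∃ p ∈ P, dist z p.1 = p.2 ∧ Sm (p.1 - z) (1 / (n + 1))})
    (fun n => isClosed_closure.preimage continuous_subtype_val) (eq_univ_of_forall fun ⟨z, hz⟩ => by
      obtain ⟨p, p1, p2⟩ := cov z
      have p3 : dist z p.1 = p.2 := p2.antisymm (not_lt.mp fun e => by
        obtain ⟨x, x1, q, q1, q2⟩ := mem_closure_iff.mp (hV ▸ hz) _ isOpen_ball (mem_ball.mpr e)
        rw [hU, mem_ball] at *
        rcases eq_or_ne p q with rfl | g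
        · exact x1.ne q2.1
        · exact (q2.2 p p1 g).not_gt x1)
      obtain ⟨κ, k0, k1⟩ := smul (hd (p.1 - z) (by
        rw [← norm_pos_iff, ← dist_eq_norm', p3]; exact pos p p1))
      obtain ⟨n, hn⟩ := exists_nat_one_div_lt k0
      exact mem_iUnion.mpr ⟨n, subset_closure ⟨p, p1, p3, k1.mono hn.le⟩⟩)
  obtain ⟨ε, ε0, hε⟩ := Metric.mem_nhds_iff.mp (mem_interior_iff_mem_nhds.mp e)
  obtain ⟨x, ⟨⟨b, R⟩, b1, b2⟩, x1⟩ := Metric.mem_closure_iff.mp (hV ▸ hz0) (ε / 2) (by linarith)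
  obtain ⟨η, η0, η1, η2⟩ : ∃ η > 0, η ≤ ε / 2 ∧ 2 * η ≤ 1 / (n + 1 : ℝ) :=
    ⟨min (ε / 2) (1 / (n + 1) / 2), by positivity, min_le_left _ _, by linarith [min_le_right (ε / 2) (1 / (n + 1 : ℝ) / 2)]⟩
  obtain ⟨D, hD⟩ : ∃ D : Set (X × ℝ), ∀ p, p ∈ D ↔ p ∈ P ∧ ∃ z, dist z x < η ∧ dist z p.1 = p.2 ∧
    Sm (p.1 - z) (1 / (n + 1)) := ⟨_, fun _ => Iff.rfl⟩
  have d1 : D.Finite := by
    by_contra c
    obtain ⟨p1, a1⟩ := Set.Infinite.nonempty c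
    obtain ⟨p2, a2, a2'⟩ := (Set.Infinite.sdiff c (fin p1 ((hD _).mp a1).1)).nonempty
    obtain ⟨p3, a3, a3'⟩ := (Set.Infinite.sdiff c ((fin p1 ((hD _).mp a1).1).union (fin p2 ((hD _).mp a2).1))).nonempty
    rw [hD] at a1 a2 a3
    simp only [mem_union, mem_ofPred_eq, a2.1, a3.1, true_and, not_or, not_le] at a2' a3'
    obtain ⟨-, z1, a1⟩ := a1
    obtain ⟨-, z2, a2⟩ := a2
    obtain ⟨-, z3, a3⟩ := a3
    have g : ∀ i, dist (![z1, z2, z3] i) x < η := fun i => by fin_cases i <;> simp [a1, a2, a3]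
    refine three (d := ![p1, p2, p3]) (z := ![z1, z2, z3]) (κ := 1 / (n + 1)) (fun i j h => ?_) (fun i => ?_)
      (fun i => ?_) fun i j => by linarith [dist_triangle_right (![z1, z2, z3] i) (![z1, z2, z3] j) x, g i, g j]
    · fin_cases i <;> fin_cases j <;> simp [dist_comm, add_comm, *] at h ⊢
    · fin_cases i <;> simp [*]
    · fin_cases i
      exacts [a1.2.2, a2.2.2, a3.2.2]
  have d2 : ∀ q ∈ P, ∀ z, U q z → dist z x < η → q ∈ D := fun q q1 z q2 q3 => by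
    obtain ⟨p, p1, p2⟩ := ((clo d1).closure_subset_iff (s := ball x η ∩ {z | ∃ p ∈ P, dist z p.1 = p.2 ∧
      Sm (p.1 - z) (1 / (n + 1))})).mpr (fun w ⟨w1, p, w2, w3⟩ => ⟨p, (hD p).mpr ⟨w2, w, w1, w3⟩, w3.1.le⟩)
      (isOpen_ball.inter_closure ⟨q3, hε (a := ⟨z, hV ▸ subset_closure ⟨q, q1, q2⟩⟩) (by
        rw [mem_ball, Subtype.dist_eq]; linarith [dist_triangle z x z0, dist_comm x z0])⟩)
    exact by_contra fun c => (((hU _ _).mp q2).2 p ((hD p).mp p1).1 fun g => c (g ▸ p1)).not_ge p2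
  rw [hU] at b2
  have R0 : 0 < R := pos _ b1
  obtain ⟨κ, k0, k1⟩ := smul (hd (x - b) (by rw [← norm_pos_iff, ← dist_eq_norm, b2.1]; exact R0))
  obtain ⟨ρ, ρ0, hρ⟩ := Metric.isOpen_iff.mp (clo ((fin _ b1).sep (· ≠ (b, R)))).isOpen_compl x
    fun ⟨q, q1, q2⟩ => (b2.2 q q1.1.1 q1.2).not_ge q2
  obtain ⟨m, ⟨⟨m1, m2, m3, m4, m5⟩, m0⟩⟩ := (((eventually_le_nhds R0).and ((eventually_le_nhds k0).and
    ((eventually_lt_nhds ρ0).and ((eventually_lt_nhds (show 0 < η / 3 by linarith)).and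
    ((eventually_all_finite d1).mpr fun p hp => eventually_le_nhds (pos p ((hD p).mp hp).1)))))).filter_mono
    nhdsWithin_le_nhds |>.and (self_mem_nhdsWithin (s := Ioi 0))).exists
  refine loc cov fin m0 m1 b2.1 (k1.mono m2) fun q q1 y y1 y2 y3 => ⟨not_le.mp fun c => hρ (y1.trans_lt m3)
    ⟨q, ⟨⟨q1, by rwa [dist_comm]⟩, fun g => y2.not_ge (g ▸ y3 :)⟩, y3⟩, not_lt.mp fun c => ?_⟩
  obtain ⟨z, hz⟩ := u1 q q1
  refine c.not_ge (m5 q (d2 q q1 z hz ?_))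
  linarith [dist_triangle4 z q.1 y x, ((hU _ _).mp hz).1, dist_comm y q.1]

end Pool.Agent.H.MP_be6c88_an
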